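import Pool.Agent.H21.TB.Main

/-!
# MP_b658b3_pr: the monotonicity in `n` holds for all large `M`

For every `n ≥ 2` there is a threshold `M₀` such that `p_{n+1,M} < p_{n,M}` for every `M ≥ M₀`.
-/

open Pool.Agent.H21.TB

/-- For every `n ≥ 2` there is `M₀` such that for every `M ≥ M₀` the stationary probability
that an agent's balance is at most `M` in absolute value is strictly smaller with `n + 1`
agents than with `n` agents. -/
theorem Pool.Agent.Results.MP_b658b3_pr.EventuallyMonotone.result (n : ℕ) (hn : 2 ≤ n) :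
    ∃ M₀ : ℕ, ∀ π : PMF (Fin n → ℤ), ∀ π' : PMF (Fin (n + 1) → ℤ),
      IsStationary π → IsStationary π' → ∀ i : Fin n, ∀ i' : Fin (n + 1), ∀ M : ℕ, M₀ ≤ M →
      balProb π' i' M < balProb π i M :=
  eventually_mono hn
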