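import Pool.Agent.H21.TB.Main

/-!
# MP_b658b3_pr: the exact exponential rate of the tail for every `n`

For every `n ≥ 2`, `P_π(|s_i| > M) ^ (1 / M)` tends to `(n - 1) / (2 n - 1)`.
-/

open Pool.Agent.H21.TB Filter Topology

/-- For every `n ≥ 2` the stationary probability that an agent's balance exceeds `M` in
absolute value decays exponentially in `M`, with exact rate `(n - 1) / (2 n - 1)`. -/
theorem Pool.Agent.Results.MP_b658b3_pr.TailRate.result (n : ℕ) (hn : 2 ≤ n)
    (π : PMF (Fin n → ℤ)) (hπ : IsStationary π) (i : Fin n) :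
    Tendsto (fun M : ℕ => (1 - balProb π i M) ^ (1 / (M : ℝ))) atTop
      (𝓝 (((n : ℝ) - 1) / (2 * n - 1))) :=
  tendsto_rate hn π hπ i
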