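import Pool.Agent.H13.TB.Main

/-!
# MP_b658b3_pr: the monotonicity in `n` for `n = 2`

`p_{3,M} < p_{2,M}` for every `M ≥ 1`.
-/

open Pool.Agent.H21.TB

/-- For every `M ≥ 1` the stationary probability that an agent's balance is at most `M` in
absolute value is strictly smaller with three agents than with two agents. -/
theorem Pool.Agent.Results.MP_b658b3_pr.TwoAgents.result (π : PMF (Fin 2 → ℤ))
    (π' : PMF (Fin 3 → ℤ)) (hπ : IsStationary π) (hπ' : IsStationary π') (i : Fin 2)
    (i' : Fin 3) (M : ℕ) (hM : 1 ≤ M) :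
    balProb π' i' M < balProb π i M :=
  Pool.Agent.H13.TB.two_three hπ hπ' i i' M hM
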